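import Pool.Agent.T9h51.PE.SysConv
import Pool.Agent.T9h51.PD.All
import Pool.Agent.T9h51.ME.Fam

/-!
# Schinzel's formula for systems of linear polynomials at ALL heights: `N` and the constant terms are multiples of integers
# near almost all vectors of members of thin families

`F_1 = x`, `F_(i+1) = c_i x + a_i` (`1 ≤ i ≤ g`), `G = c₀ x`, and the number `N` of the hypothesis. The numbers `N, a_1, ..., a_g`
are multiples of integers `q_0, q_1, ..., q_g`. The theorem gives the formula of the hypothesis for all but very few of the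
vectors `(N, a_1, ..., a_g)` of multiples up to `x`, for ALL real `x > 0`, and for all the vectors `(q_0, ..., q_g)` close to
almost all vectors `(v_0, ..., v_g)`, where `v_i` runs through an arbitrary finite family of integers up to `B M` whose additive
energy of some order `h` is at most `log ^ C M` times the least possible one. The families may have as few as
`M ^ (1 / h)` members. Examples are sets with different sums of `h` elements (`h = 2`: Sidon sets) of nearly the largest possible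
cardinality, and the values of polynomials at integers with restricted digits.

The definitions `Q₁`, `XN`, `IsSeries`, `NoFixed` are those of `Pool.Agent.Results.MP_0bf1d2_nt.LinearFormsLargeRadical`, for
`s = true`, which means that `F_1 = x` is one of the polynomials.

Method. (i) `x ≤ M ^ 2`: the products `m v`, `m ≤ M'`, of a family of nearly minimal energy at the scale `M` form a family of nearly
minimal energy at the scale `M M'` (`Pool.Agent.T9h51.PE.prod_energy`), so that the passage from the energy to systems of linear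
forms (starting files, `Pool.Agent.TH935`) applies to the vectors of multiples at all dyadic scales. (ii) `x > M ^ 2`: the moduli
which are not divisible by one of few exceptional integers with large radicals are good
(`Pool.Agent.Results.MP_0bf1d2_nt.LinearFormsLargeRadical`); by the minimal energy the exceptional integers of all dyadic scales
together divide few of the integers near the members of the families (`Pool.Agent.T9h51.PE.no_divisors`).
-/

set_option autoImplicit false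

namespace Pool.Agent.Results.MP_0bf1d2_nt.AllHeightsSystems

open Finset Filter Topology Polynomial
open Pool.Agent.Results.MP_0bf1d2_nt.LinearFormsLargeRadical (Q₁ XN IsSeries NoFixed)

variable {g : ℕ}

/-- **Schinzel's formula** for `F_1 = x`, `F_(i+1) = c_i x + a_i`, `G = c₀ x` and the number `N`, where `β = (N, a_1, ..., a_g)`, with
a relative error of at most `ε`: if the `F_i` are distinct, if their product with `N - G` has no fixed prime divisor and if
`X(N) ≥ ε x`, then the singular series converges to a number `𝔖 > 0` and `Q_1(N) = (1 + θ ε) 𝔖 X / log ^ (g + 2) X`, `|θ| ≤ 1`. -/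
def Good (ε : ℝ) (c₀ : ℕ) (c : Fin g → ℕ) (x : ℝ) (β : Fin (g + 1) → ℕ) : Prop :=
  (∀ i j : Fin g, i ≠ j → ¬ (c i = c j ∧ β i.succ = β j.succ)) → NoFixed true c₀ c (β 0) (fun i => β i.succ) →
  ε * x ≤ XN c₀ (β 0) → ∃ 𝔖 : ℝ, 0 < 𝔖 ∧ IsSeries true c₀ c (β 0) (fun i => β i.succ) 𝔖 ∧
    |(Q₁ true c₀ c (β 0) (fun i => β i.succ) : ℝ) - 𝔖 * (XN c₀ (β 0) / Real.log (XN c₀ (β 0)) ^ (g + 2))| ≤
      ε * (𝔖 * (XN c₀ (β 0) / Real.log (XN c₀ (β 0)) ^ (g + 2)))

/-- The vectors `β = (N, a_1, ..., a_g)` of positive integers up to `x` which are multiples of `q_0, ..., q_g` and for which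
the formula fails (a finite set). -/
def exceptional (ε : ℝ) (c₀ : ℕ) (c : Fin g → ℕ) (x : ℝ) (q : Fin (g + 1) → ℕ) : Set (Fin (g + 1) → ℕ) :=
  {β : Fin (g + 1) → ℕ | (∀ i, 1 ≤ β i ∧ (β i : ℝ) ≤ x ∧ q i ∣ β i) ∧ ¬ Good ε c₀ c x β}

/-- For ALL positive integers `q_0, ..., q_g` with `|q_i - v_i| ≤ L ^ W` and ALL real `x > 0` there are at most
`(x / q_0) ⋯ (x / q_g) / L ^ A` exceptional vectors. -/
def AllX (ε : ℝ) (c₀ : ℕ) (c : Fin g → ℕ) (A W : ℕ) (L : ℝ) (v : Fin (g + 1) → ℤ) : Prop :=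
  ∀ q : Fin (g + 1) → ℕ, (∀ i, 1 ≤ q i) → (∀ i, |(q i : ℝ) - v i| ≤ L ^ W) → ∀ x : ℝ, 0 < x →
    ((exceptional ε c₀ c x q).ncard : ℝ) ≤ (∏ i, x / q i) / L ^ A

/-- The additive energy of order `h` of a finite family `v` of integers: the number of the solutions of
`v (i 1) + ⋯ + v (i h) = v (j 1) + ⋯ + v (j h)`. -/
noncomputable def energy (h : ℕ) {ι : Type} [Fintype ι] (v : ι → ℤ) : ℕ :=
  Nat.card {q : (Fin h → ι) × (Fin h → ι) // ∑ j, v (q.1 j) = ∑ j, v (q.2 j)}

/-- The sums of `h` elements of `A` are different, up to the order of the summands (`h = 2`: `A` is a Sidon set). -/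
def DifferentSums (h : ℕ) (A : Finset ℤ) : Prop :=
  ∀ x y : Fin h → ℤ, (∀ j, x j ∈ A) → (∀ j, y j ∈ A) → ∑ j, x j = ∑ j, y j → ∃ σ : Equiv.Perm (Fin h), ∀ j, x j = y (σ j)

/-- The integers below `b ^ k` whose `i`-th digit in base `b` belongs to `D i` for all `i < k`. -/
def S (b : ℕ) (D : ℕ → Finset ℕ) (k : ℕ) : Finset ℕ := (range (b ^ k)).filter (fun n : ℕ => ∀ i < k, n / b ^ i % b ∈ D i)

/-- the range of large heights -/
lemma highc (ε : ℝ) (hε : 0 < ε) (c₀ : ℕ) (hc₀ : 1 ≤ c₀) (c : Fin g → ℕ) (hc : ∀ i, 1 ≤ c i) (E : ℕ) :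
    ∃ e : ℕ, ∀ S : ℕ, ∃ x₀ : ℕ, ∀ x : ℕ, x₀ ≤ x → ∃ D : Finset ℕ, (D.card : ℝ) ≤ Real.log x ^ e ∧
      (∀ d ∈ D, Real.log x ^ S < (d : ℝ)) ∧ ∀ q : Fin (g + 1) → ℕ, (∀ i, 1 ≤ q i ∧ (q i : ℝ) ≤ (x : ℝ) ^ (2 / 3 - 1 / 12 : ℝ) ∧
        ∀ d ∈ D, ¬ d ∣ q i) → ((Pool.Agent.T9h51.PE.excS (fun (y : ℝ) (β : Fin (g + 1) → ℕ) =>
          LinearFormsLargeRadical.Good true c₀ c (ε / 2) 0 ⌊y⌋₊ (β 0) (fun i => β i.succ)) x q).ncard : ℝ) ≤
          (∏ i, (x : ℝ) / q i) / Real.log x ^ E := by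
  obtain ⟨e, he⟩ := LinearFormsLargeRadical.result true g c₀ hc₀ c hc (1 / 12) (by norm_num) (ε / 2) (by positivity) E 0
  refine ⟨e, fun S => ?_⟩
  obtain ⟨x₀, hx₀⟩ := he S
  refine ⟨x₀ + 3, fun x hx => ?_⟩
  obtain ⟨D, hD1, hD2, hD3⟩ := hx₀ x (by omega)
  have hlog : 1 ≤ Real.log (x : ℝ) := by
    rw [Real.le_log_iff_exp_le (by exact_mod_cast (by omega : 0 < x))]
    have h1 := Real.exp_one_lt_d9
    have h2 : (3 : ℝ) ≤ x := by exact_mod_cast (by omega : 3 ≤ x)
    linarith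
  refine ⟨D, hD1, fun d hd => ?_, fun q hq => ?_⟩
  · have e1 := hD2 d hd
    refine e1.trans_le ?_
    have e2 : d ≠ 0 := by
      rintro rfl
      have e3 : ((LinearFormsLargeRadical.radical 0 : ℕ) : ℝ) = 1 := by
        unfold LinearFormsLargeRadical.radical
        simp
      rw [e3] at e1
      exact absurd (one_le_pow₀ hlog) (not_le.2 e1)
    have e4 : LinearFormsLargeRadical.radical d ≤ d := Nat.le_of_dvd (Nat.pos_of_ne_zero e2) (Nat.prod_primeFactors_dvd d)
    exact_mod_cast e4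
  · have key := hD3 (q 0) (fun i => q i.succ) (hq 0).1 (hq 0).2.1 (hq 0).2.2
      (fun i => ⟨(hq i.succ).1, (hq i.succ).2.1, (hq i.succ).2.2⟩) 0 (fun _ => 0)
    rw [Fin.prod_univ_succ]
    refine le_trans ?_ key
    rw [Nat.cast_le]
    refine Set.ncard_le_ncard_of_injOn (fun β : Fin (g + 1) → ℕ => ((β 0, fun i => β i.succ) : ℕ × (Fin g → ℕ))) ?_ ?_ ?_
    · rintro β ⟨h1, h2⟩
      simp only [Nat.floor_natCast] at h2
      refine ⟨⟨(h1 0).1, by exact_mod_cast (h1 0).2.1, ?_⟩, fun i => ⟨(h1 i.succ).1, by exact_mod_cast (h1 i.succ).2.1, ?_⟩, h2⟩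
      · rw [Int.modEq_zero_iff_dvd]
        exact_mod_cast (h1 0).2.2
      · rw [Int.modEq_zero_iff_dvd]
        exact_mod_cast (h1 i.succ).2.2
    · intro β _ β' _ h
      simp only [Prod.mk.injEq] at h
      funext i
      refine Fin.cases h.1 (fun i => congrFun h.2 i) i
    · apply Set.Finite.subset ((Icc 1 x) ×ˢ (Fintype.piFinset (fun _ : Fin g => Icc 1 x))).finite_toSet
      rintro v ⟨⟨h1, h2, -⟩, h3, -⟩
      rw [mem_coe, mem_product, mem_Icc, Fintype.mem_piFinset]
      refine ⟨⟨h1, h2⟩, fun i => ?_⟩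
      rw [mem_Icc]
      exact ⟨(h3 i).1, (h3 i).2.1⟩

theorem general (g : ℕ) (c₀ : ℕ) (hc₀ : 1 ≤ c₀) (c : Fin g → ℕ) (hc : ∀ i, 1 ≤ c i) (ε : ℝ) (hε : 0 < ε) (A W U h B C : ℕ)
    (hh : 1 ≤ h) : ∃ N₀ : ℕ, ∀ N : ℕ, N₀ ≤ N → ∀ (ι : Fin (g + 1) → Type) [∀ i, Fintype (ι i)] (v : ∀ i, ι i → ℤ),
    (∀ i j, |v i j| ≤ B * N) →
    (∀ i, (energy h (v i) : ℝ) * N ≤ Real.log N ^ C * (Fintype.card (ι i) : ℝ) ^ (2 * h)) →
    ∀ T : Finset (∀ i, ι i), (∀ t ∈ T, ¬ AllX ε c₀ c A W (Real.log N) (fun i => v i (t i))) →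
    (T.card : ℝ) ≤ (∏ i, (Fintype.card (ι i) : ℝ)) / Real.log N ^ U := by
  classical
  obtain ⟨N₀, h0⟩ := Pool.Agent.T9h51.PE.all_sys (k := g + 1) (by omega) (Good ε c₀ c)
    (fun (y : ℝ) (β : Fin (g + 1) → ℕ) =>
      LinearFormsLargeRadical.Good true c₀ c (ε / 2) 0 ⌊y⌋₊ (β 0) (fun i => β i.succ)) (ε / 4) (by positivity)
    (fun B D hB => by
      obtain ⟨B', rfl⟩ : ∃ B', B = B' + 1 := ⟨B - 1, by omega⟩
      exact Pool.Agent.T9h51.PE.SF.lowc ε hε c₀ hc₀ c hc B' D (by omega))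
    (highc ε hε c₀ hc₀ c hc) (fun x y hxy hyx β hβ hR hd hfix hX => by
      obtain ⟨𝔖, h1, -, h3⟩ := hR
      have hx1 : 1 ≤ x := by
        have e1 : (1 : ℝ) ≤ β 0 := by exact_mod_cast (hβ 0).1
        exact e1.trans (hβ 0).2
      have h4 := h3 hfix (by
        refine le_trans ?_ hX
        have e1 := Nat.floor_le (by linarith : 0 ≤ y)
        calc ε / 2 * (⌊y⌋₊ : ℝ) ≤ ε / 2 * (2 * x) := mul_le_mul_of_nonneg_left (e1.trans hyx) (by positivity)
          _ = ε * x := by ring)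
      have hpos : 0 < 𝔖 := Pool.Agent.T9h51.PE.SF.series_pos c₀ hc₀ c hc (β 0) (hβ 0).1 (fun i => β i.succ)
        (fun i => (hβ i.succ).1) hd hfix 𝔖 h1
      refine ⟨𝔖, hpos, h1, h4.trans ?_⟩
      have e2 : (0 : ℝ) ≤ 𝔖 * (XN c₀ (β 0) / Real.log (XN c₀ (β 0)) ^ (g + 2)) := by
        have e3 : 0 ≤ Real.log (XN c₀ (β 0) : ℝ) := Real.log_natCast_nonneg _
        positivity
      exact mul_le_mul_of_nonneg_right (by linarith) e2) h B C A W U hh
  refine ⟨N₀, fun N hN ι _ v hv hE T hT => ?_⟩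
  refine le_trans ?_ (h0 N hN ι v hv hE)
  apply Nat.cast_le.2
  apply card_le_card
  intro t ht
  rw [mem_filter]
  exact ⟨mem_univ _, hT t ht⟩

/-- from finite types to finite sets -/
lemma to_sets {α : Type} [DecidableEq α] {k : ℕ} (V : Fin k → Finset α) (Bad : (Fin k → α) → Prop) [DecidablePred Bad] (u : ℝ)
    (h : ∀ T : Finset (∀ i, {a // a ∈ V i}), (∀ t ∈ T, Bad (fun i => (t i).1)) →
      (T.card : ℝ) ≤ (∏ i, (Fintype.card {a // a ∈ V i} : ℝ)) / u) :
    (((Fintype.piFinset V).filter Bad).card : ℝ) ≤ (∏ i, ((V i).card : ℝ)) / u := by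
  classical
  refine le_trans ?_ ((h (univ.filter (fun t : ∀ i, {a // a ∈ V i} => Bad (fun i => (t i).1)))
    (fun t ht => (mem_filter.1 ht).2)).trans (le_of_eq ?_))
  · apply Nat.cast_le.2
    refine (card_le_card (t := image (fun (v : ∀ i, {a // a ∈ V i}) (i : Fin k) => (v i).1) _) ?_).trans card_image_le
    intro v hv
    rw [mem_filter, Fintype.mem_piFinset] at hv
    rw [mem_image]
    exact ⟨fun i => ⟨v i, hv.1 i⟩, mem_filter.2 ⟨mem_univ _, hv.2⟩, rfl⟩
  · congr 1
    apply prod_congr rfl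
    intro i _
    rw [Fintype.card_coe]

open Classical in
/-- **Schinzel's formula for systems of linear polynomials at all heights.** Let `g ≥ 0`, `c₀, c_1, ..., c_g ≥ 1`, `ε > 0` and
`A`, `W`, `U` be fixed. A vector `v = (v_0, ..., v_g)` of integers has the property `AllX` (with `L = log M`) if for ALL the
positive integers `q_0, ..., q_g` with `|q_i - v_i| ≤ log ^ W M` and for ALL real `x > 0` the following holds: for all but at most
`(x / q_0) ⋯ (x / q_g) / log ^ A M` of the vectors `(N, a_1, ..., a_g)` of positive integers up to `x` with `q_0 ∣ N`, `q_i ∣ a_i`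
Schinzel's formula for `F_1 = x`, `F_(i+1) = c_i x + a_i`, `G = c₀ x` and `N` is true with a relative error of at most `ε` (if
the `F_i` are distinct, there is no fixed prime divisor and `X(N) ≥ ε x`).

(1) Let `h ≥ 1`, `B`, `C` be fixed and let `M` be large. For `0 ≤ i ≤ g` let `v_i j`, `j ∈ ι_i`, be a finite family of integers
with `|v_i j| ≤ B M` whose additive energy of order `h` is at most `log ^ C M` times `(#ι_i) ^ (2 h) / M`. Then all the vectors
`(v_0 (j_0), ..., v_g (j_g))`, except for a proportion of at most `1 / log ^ U M` of the `(j_0, ..., j_g)`, have this property.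

(2) In particular this holds for all sets `V_i` of integers in `[-B M, B M]` the sums of `h` elements of which are different,
with at least `(M / log ^ C M) ^ (1 / h)` elements: all the vectors in `V_0 × ⋯ × V_g`, except for a proportion of at most
`1 / log ^ U M`, have this property.

(3) Let bases `b_i ≥ 2`, degrees `d_i ≥ 2`, leading coefficients `κ_i ≠ 0` and `B` be fixed and let `M` be large. For
`0 ≤ i ≤ g` let `M ≤ B b_i ^ (d_i k_i)`, let `D_i(l)`, `l < k_i`, be arbitrary sets of at least two digits in base `b_i`, let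
`S_i` be the set of the integers below `b_i ^ k_i` whose digit number `l` lies in `D_i(l)` for all `l < k_i`, and let `f_i` be an
arbitrary polynomial with integer coefficients, of degree `d_i` and with leading coefficient `κ_i`, with `|f_i(n)| ≤ B M` for
all `n < b_i ^ k_i`. Then for all the vectors `(n_0, ..., n_g)` with `n_i ∈ S_i`, except for a proportion of at most
`1 / log ^ U M`, the vector `(f_0(n_0), ..., f_g(n_g))` has this property. -/
theorem result (g : ℕ) (c₀ : ℕ) (hc₀ : 1 ≤ c₀) (c : Fin g → ℕ) (hc : ∀ i, 1 ≤ c i) (ε : ℝ) (hε : 0 < ε) (A W U : ℕ) :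
    (∀ h B C : ℕ, 1 ≤ h → ∃ M₀ : ℕ, ∀ M : ℕ, M₀ ≤ M →
      (∀ (ι : Fin (g + 1) → Type) [∀ i, Fintype (ι i)] (v : ∀ i, ι i → ℤ), (∀ i j, |v i j| ≤ B * M) →
        (∀ i, (energy h (v i) : ℝ) * M ≤ Real.log M ^ C * (Fintype.card (ι i) : ℝ) ^ (2 * h)) →
        ((univ.filter (fun j : ∀ i, ι i => ¬ AllX ε c₀ c A W (Real.log M) (fun i => v i (j i)))).card : ℝ) ≤
          (∏ i, (Fintype.card (ι i) : ℝ)) / Real.log M ^ U) ∧
      (∀ V : Fin (g + 1) → Finset ℤ, (∀ i, ∀ a ∈ V i, |a| ≤ B * M) → (∀ i, DifferentSums h (V i)) →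
        (∀ i, (M : ℝ) ≤ Real.log M ^ C * ((V i).card : ℝ) ^ h) →
        (((Fintype.piFinset V).filter (fun v => ¬ AllX ε c₀ c A W (Real.log M) v)).card : ℝ) ≤
          (∏ i, ((V i).card : ℝ)) / Real.log M ^ U)) ∧
    (∀ (B : ℕ) (b d : Fin (g + 1) → ℕ), (∀ i, 2 ≤ b i) → (∀ i, 2 ≤ d i) → ∀ κ : Fin (g + 1) → ℤ, (∀ i, κ i ≠ 0) →
      ∃ M₀ : ℕ, ∀ M : ℕ, M₀ ≤ M → ∀ (k : Fin (g + 1) → ℕ) (D : Fin (g + 1) → ℕ → Finset ℕ) (f : Fin (g + 1) → ℤ[X]),
      (∀ i, M ≤ B * b i ^ (d i * k i)) → (∀ i, ∀ l < k i, D i l ⊆ range (b i) ∧ 2 ≤ (D i l).card) →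
      (∀ i, (f i).natDegree = d i ∧ (f i).leadingCoeff = κ i ∧ ∀ n < b i ^ k i, |(f i).eval (n : ℤ)| ≤ B * M) →
      (((Fintype.piFinset (fun i => S (b i) (D i) (k i))).filter (fun n : Fin (g + 1) → ℕ =>
        ¬ AllX ε c₀ c A W (Real.log M) (fun i => (f i).eval (n i : ℤ)))).card : ℝ) ≤
          (∏ i, ((S (b i) (D i) (k i)).card : ℝ)) / Real.log M ^ U) := by
  refine ⟨fun h B C hh => ?_, fun B b d hb hd κ hκ => ?_⟩
  · obtain ⟨n1, h1⟩ := general g c₀ hc₀ c hc ε hε A W U h B (C + 1) hh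
    obtain ⟨n2, h2⟩ := Pool.Agent.H373R2.T7.ev_L' (h.factorial + 1 : ℝ)
    refine ⟨n1 + n2, fun M hM => ?_⟩
    have hL := h2 M (by omega)
    have hf0 : (0 : ℝ) ≤ h.factorial := Nat.cast_nonneg _
    have hL1 : 1 ≤ Real.log (M : ℝ) := by linarith
    have hL0 : 0 ≤ Real.log (M : ℝ) := by linarith
    refine ⟨fun ι _ v hv hE => ?_, fun V hV hsum hbig => ?_⟩
    · refine h1 M (by omega) ι v hv (fun i => (hE i).trans ?_) _ (fun t ht => (mem_filter.1 ht).2)
      exact mul_le_mul_of_nonneg_right (pow_le_pow_right₀ hL1 (Nat.le_succ _)) (by positivity)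
    · refine to_sets V (fun v => ¬ AllX ε c₀ c A W (Real.log M) v) (Real.log M ^ U) (fun T hT => ?_)
      refine h1 M (by omega) (fun i => {a // a ∈ V i}) (fun i a => a.1) (fun i a => hV i a.1 a.2) (fun i => ?_) T hT
      have hE := Pool.Agent.T9h51.ME.energy_unique h (fun a : {a // a ∈ V i} => a.1) (fun x y hxy => by
        obtain ⟨σ, hσ⟩ := hsum i (fun j => (x j).1) (fun j => (y j).1) (fun j => (x j).2) (fun j => (y j).2) hxy
        exact ⟨σ, fun j => Subtype.ext (hσ j)⟩)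
      have hb := hbig i
      have hfc : (Fintype.card {a // a ∈ V i} : ℝ) = (V i).card := by rw [Fintype.card_coe]
      rw [hfc] at hE ⊢
      have hE2 : (energy h (fun a : {a // a ∈ V i} => a.1) : ℝ) ≤ h.factorial * ((V i).card : ℝ) ^ h := hE
      calc (energy h (fun a : {a // a ∈ V i} => a.1) : ℝ) * M ≤
            (h.factorial * ((V i).card : ℝ) ^ h) * (Real.log M ^ C * ((V i).card : ℝ) ^ h) :=
            mul_le_mul hE2 hb (Nat.cast_nonneg _) (by positivity)
        _ = h.factorial * (Real.log M ^ C * ((V i).card : ℝ) ^ (2 * h)) := by ring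
        _ ≤ Real.log M * (Real.log M ^ C * ((V i).card : ℝ) ^ (2 * h)) :=
            mul_le_mul_of_nonneg_right (by linarith) (by positivity)
        _ = _ := by ring
  · obtain ⟨p, n1, h1⟩ := Pool.Agent.T9h51.PD.energy_scale b d hb hd κ hκ B
    rcases Nat.eq_zero_or_pos p with hp | hp
    · -- the energy of order zero is one
      refine ⟨n1 + 1, fun M hM k D f hk hD hf => ?_⟩
      exfalso
      have h2 := h1 M (by omega) 0 (k 0) (hk 0) (D 0) (hD 0) (f 0) (hf 0).1 (hf 0).2.1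
      rw [hp] at h2
      have e1 : Pool.Agent.TH212.EH.En 0 (fun n : {n // n ∈ Pool.Agent.TH872.Sq.SD (b 0) (D 0) (k 0)} => (f 0).eval (n.1 : ℤ)) = 1 := by
        unfold Pool.Agent.TH212.EH.En
        rw [Nat.card_eq_fintype_card, Fintype.card_eq_one_iff]
        refine ⟨⟨(Fin.elim0, Fin.elim0), by simp⟩, ?_⟩
        rintro ⟨⟨x, y⟩, hxy⟩
        apply Subtype.ext
        apply Prod.ext
        · funext i; exact i.elim0
        · funext i; exact i.elim0
      rw [e1, Nat.cast_one, one_mul, mul_zero, pow_zero, mul_one, pow_one] at h2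
      have h3 : (1 : ℝ) ≤ M := by exact_mod_cast (by omega : 1 ≤ M)
      have h4 := Real.log_le_sub_one_of_pos (by linarith : (0 : ℝ) < M)
      linarith
    obtain ⟨n2, h2⟩ := general g c₀ hc₀ c hc ε hε A W U p B 1 hp
    refine ⟨n1 + n2, fun M hM k D f hk hD hf => ?_⟩
    have hSlt : ∀ i, ∀ n ∈ S (b i) (D i) (k i), n < b i ^ k i := by
      intro i n hn
      unfold S at hn
      rw [mem_filter, mem_range] at hn
      exact hn.1
    refine to_sets (fun i => S (b i) (D i) (k i)) (fun n : Fin (g + 1) → ℕ =>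
        ¬ AllX ε c₀ c A W (Real.log M) (fun i => (f i).eval (n i : ℤ))) (Real.log M ^ U) (fun T hT => ?_)
    exact h2 M (by omega) (fun i => {n // n ∈ S (b i) (D i) (k i)}) (fun i n => (f i).eval (n.1 : ℤ))
      (fun i n => (hf i).2.2 n.1 (hSlt i n.1 n.2))
      (fun i => h1 M (by omega) i (k i) (hk i) (D i) (hD i) (f i) (hf i).1 (hf i).2.1) T hT

end Pool.Agent.Results.MP_0bf1d2_nt.AllHeightsSystems
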