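import Pool.Agent.T9h57.TG.Few

set_option autoImplicit false

/-!
# Schinzel's Goldbach-type hypothesis for systems of linear polynomials: almost all `(N, a₁, …, a_g)` in EVERY box of
# residue classes of all moduli up to `x ^ (2 / 3 - ρ)` but the multiples of few integers of large radical

Fix positive integers `c₀, c₁, …, c_g` and consider `F₁ = c₁ n + a₁, …, F_g = c_g n + a_g`, possibly together with the
polynomial `n`, and `G = c₀ n`. There is a set `D` of at most `(log x) ^ e` integers, the RADICALS of which are larger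
than any given power of `log x`, such that for all moduli `q₀, q₁, …, q_g ≤ x ^ (2 / 3 - ρ)` which are not divisible by
a member of `D`, and for ALL residue classes `b₀ (mod q₀), …, b_g (mod q_g)`, the formula of Schinzel's hypothesis is
true for all but a proportion `(log x) ^ (-A)` of the `(N, a₁, …, a_g)` with `N, a_i ≤ x`, `N ≡ b₀ (mod q₀)`,
`a_i ≡ b_i (mod q_i)`: the number of the `n ≤ y` for which `N - c₀ n` and all the `F_i(n)` are primes is
`𝔖 ∑_{n ≤ y} 1 / (log (N - c₀ n) ∏ log F_i(n))` up to `x / (log x) ^ C`, for all `y ≤ x`, and if there is no fixed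
prime divisor and `X(N) ≥ ε x`, then `Q₁(N)` is `(1 ± ε) 𝔖 X / (log X) ^ m`, `m` the number of the polynomials.

There are no conditions on greatest common divisors. In particular no moduli with radicals at most a power of `log x`
are excluded: for instance all the numbers `N` and `a_i` may be prescribed modulo arbitrary powers
`r ^ k ≤ x ^ (2 / 3 - ρ)` of a bounded integer `r`.

Proof (`T9h57/PK`, `T9h57/GL`, `T9h57/TP`, `T9h57/TG`). For a character modulo `d` whose radical is at most a power of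
`log x` the formula of Postnikov and the method of Vinogradov give a wide zero-free region, unless it is real, and the
conductor of a real character is at most `8 rad d`. The primitive characters of conductors up to `x ^ (2 / 3)` for which
the sums over primes do not save a large power of `log x` are few (large sieve), and the conductors of the exceptions,
divided by small factors, are the members of `D`. For a modulus which is not divisible by a member of `D` the mean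
squares over all characters are small near the fractions with small denominators. With this the von Mangoldt function
is replaced by its sieve model, in the mean over the constant term in the residue class, in one polynomial after the
other, and for all `y` of a grid at the same time. The sieve model is evaluated with the fundamental lemma.
-/

namespace Pool.Agent.Results.MP_0bf1d2_nt.LinearFormsLargeRadical

open Finset Filter Topology

variable {g : ℕ}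

/-- The radical of `q`: the product of the primes dividing `q`. -/
def radical (q : ℕ) : ℕ := ∏ p ∈ q.primeFactors, p

/-- `n` (only if `s` is true), `N - c₀ n` and all the `c_i n + a_i` are (positive) primes. -/
def AllPrime (s : Bool) (c₀ : ℕ) (c : Fin g → ℕ) (N : ℕ) (a : Fin g → ℕ) (n : ℕ) : Prop :=
  (s = true → n.Prime) ∧ ((N : ℤ) - c₀ * n).toNat.Prime ∧ ∀ i, (c i * n + a i).Prime

open Classical in
/-- The number of the `1 ≤ n ≤ y` with prime values. -/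
noncomputable def count (s : Bool) (c₀ : ℕ) (c : Fin g → ℕ) (N : ℕ) (a : Fin g → ℕ) (y : ℕ) : ℕ :=
  ((Icc 1 y).filter (fun n => AllPrime s c₀ c N a n)).card

/-- `Q₁(N)`: the number of the positive integers with prime values. -/
noncomputable def Q₁ (s : Bool) (c₀ : ℕ) (c : Fin g → ℕ) (N : ℕ) (a : Fin g → ℕ) : ℕ :=
  {n : ℕ | 1 ≤ n ∧ AllPrime s c₀ c N a n}.ncard

/-- `X(N)`: the number of the positive integers `n` with `N - c₀ n > 0`. -/
noncomputable def XN (c₀ N : ℕ) : ℕ := {n : ℕ | 1 ≤ n ∧ 0 < (N : ℤ) - c₀ * n}.ncard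

/-- The value at `n` of the product of the polynomials `x` (only if `s` is true), `N - c₀ x`, `c_i x + a_i`. -/
def value (s : Bool) (c₀ : ℕ) (c : Fin g → ℕ) (N : ℕ) (a : Fin g → ℕ) (n : ℤ) : ℤ :=
  (if s = true then n else 1) * (N - c₀ * n) * ∏ i, (c i * n + a i)

/-- `ω(p)`: the number of the zeros modulo `p` of the product of the polynomials. -/
def omega (s : Bool) (c₀ : ℕ) (c : Fin g → ℕ) (N : ℕ) (a : Fin g → ℕ) (p : ℕ) : ℕ :=
  ((range p).filter (fun n : ℕ => (p : ℤ) ∣ value s c₀ c N a n)).card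

/-- The product of the factors of the singular series, over the primes up to `z`. -/
noncomputable def product (s : Bool) (c₀ : ℕ) (c : Fin g → ℕ) (N : ℕ) (a : Fin g → ℕ) (z : ℕ) : ℝ :=
  ∏ p ∈ (Icc 1 z).filter Nat.Prime,
    (1 - (omega s c₀ c N a p : ℝ) / p) / (1 - 1 / (p : ℝ)) ^ (g + 1 + s.toNat)

/-- `𝔖` is the singular series: the product over all primes, in increasing order, converges to `𝔖`. -/
def IsSeries (s : Bool) (c₀ : ℕ) (c : Fin g → ℕ) (N : ℕ) (a : Fin g → ℕ) (𝔖 : ℝ) : Prop :=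
  Tendsto (product s c₀ c N a) atTop (𝓝 𝔖)

/-- The product of the polynomials has no fixed prime divisor. -/
def NoFixed (s : Bool) (c₀ : ℕ) (c : Fin g → ℕ) (N : ℕ) (a : Fin g → ℕ) : Prop :=
  ∀ p : ℕ, p.Prime → ∃ n : ℤ, ¬ (p : ℤ) ∣ value s c₀ c N a n

/-- The sum of `1 / (log (N - c₀ n) ∏ log (c_i n + a_i))`, with the additional factor `1 / log n` if `s` is true, over
the `2 ≤ n ≤ y` with `N - c₀ n ≥ 2`. -/
noncomputable def mainSum (s : Bool) (c₀ : ℕ) (c : Fin g → ℕ) (N : ℕ) (a : Fin g → ℕ) (y : ℕ) : ℝ :=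
  ∑ n ∈ (Icc 2 y).filter (fun n : ℕ => 2 ≤ (N : ℤ) - c₀ * n),
    1 / ((if s = true then Real.log n else 1) * Real.log (((N : ℤ) - c₀ * n : ℤ) : ℝ) *
      ∏ i, Real.log ((c i * n + a i : ℕ) : ℝ))

/-- The conclusion for `(N, a₁, …, a_g)`: the numbers of the `n ≤ y` with prime values, for all `y ≤ x`, with an
error of at most `x / (log x) ^ C`, and Schinzel's formula for `Q₁(N)` with a relative error of at most `ε`, if there is
no fixed prime divisor and `X(N) ≥ ε x`. -/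
def Good (s : Bool) (c₀ : ℕ) (c : Fin g → ℕ) (ε : ℝ) (C x : ℕ) (N : ℕ) (a : Fin g → ℕ) : Prop :=
  ∃ 𝔖 : ℝ, IsSeries s c₀ c N a 𝔖 ∧
    (∀ y : ℕ, y ≤ x → |(count s c₀ c N a y : ℝ) - 𝔖 * mainSum s c₀ c N a y| ≤ x / Real.log x ^ C) ∧
    (NoFixed s c₀ c N a → ε * x ≤ XN c₀ N →
      |(Q₁ s c₀ c N a : ℝ) - 𝔖 * (XN c₀ N / Real.log (XN c₀ N) ^ (g + 1 + s.toNat))| ≤
        ε * (𝔖 * (XN c₀ N / Real.log (XN c₀ N) ^ (g + 1 + s.toNat))))

/-- The `(N, a₁, …, a_g)` with `1 ≤ N, a_i ≤ x`, `N ≡ b₀ (mod q₀)`, `a_i ≡ b_i (mod q_i)` for which the conclusion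
fails. -/
def exceptional (s : Bool) (c₀ : ℕ) (c : Fin g → ℕ) (ε : ℝ) (C x q₀ : ℕ) (q : Fin g → ℕ) (b₀ : ℤ) (b : Fin g → ℤ) :
    Set (ℕ × (Fin g → ℕ)) :=
  {v : ℕ × (Fin g → ℕ) | (1 ≤ v.1 ∧ v.1 ≤ x ∧ (v.1 : ℤ) ≡ b₀ [ZMOD q₀]) ∧
    (∀ i, 1 ≤ v.2 i ∧ v.2 i ≤ x ∧ (v.2 i : ℤ) ≡ b i [ZMOD q i]) ∧ ¬ Good s c₀ c ε C x v.1 v.2}

/-- the signs -/
def sg : Fin (g + 1) → ℤ := Fin.cons (-1) (fun _ => 1)

lemma sg_or (i : Fin (g + 1)) : (sg : Fin (g + 1) → ℤ) i = 1 ∨ (sg : Fin (g + 1) → ℤ) i = -1 := by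
  refine Fin.cases ?_ (fun i => ?_) i
  · right; rfl
  · left; rfl

open Pool.Agent.T9h57.TG (vz AllZ cntZ dom fz om GoodZ)

lemma vz_zero (c₀ : ℕ) (c : Fin g → ℕ) (N : ℕ) (a : Fin g → ℕ) (n : ℕ) :
    vz (Fin.cons c₀ c : Fin (g + 1) → ℕ) sg (Fin.cons N a) 0 n = (N : ℤ) - c₀ * n := by
  unfold vz sg
  simp only [Fin.cons_zero]
  ring

lemma vz_succ (c₀ : ℕ) (c : Fin g → ℕ) (N : ℕ) (a : Fin g → ℕ) (n : ℕ) (i : Fin g) :
    vz (Fin.cons c₀ c : Fin (g + 1) → ℕ) sg (Fin.cons N a) i.succ n = ((c i * n + a i : ℕ) : ℤ) := by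
  unfold vz sg
  simp only [Fin.cons_succ]
  push_cast
  ring

lemma allz_iff (s : Bool) (c₀ : ℕ) (c : Fin g → ℕ) (N : ℕ) (a : Fin g → ℕ) (n : ℕ) :
    AllZ s (Fin.cons c₀ c : Fin (g + 1) → ℕ) sg (Fin.cons N a) n ↔ AllPrime s c₀ c N a n := by
  unfold AllZ AllPrime
  rw [Fin.forall_fin_succ, vz_zero]
  simp only [vz_succ, Int.toNat_natCast]

lemma cnt_eq (s : Bool) (c₀ : ℕ) (c : Fin g → ℕ) (N : ℕ) (a : Fin g → ℕ) (y : ℕ) :
    cntZ s (Fin.cons c₀ c : Fin (g + 1) → ℕ) sg (Fin.cons N a) y = count s c₀ c N a y := by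
  classical
  unfold cntZ count
  congr 1
  ext n
  rw [mem_filter, mem_filter, allz_iff]

lemma main_eq (s : Bool) (c₀ : ℕ) (c : Fin g → ℕ) (hc : ∀ i, 1 ≤ c i) (N : ℕ) (a : Fin g → ℕ) (y : ℕ) :
    ∑ n ∈ dom (Fin.cons c₀ c : Fin (g + 1) → ℕ) sg (Fin.cons N a) y,
      fz s (Fin.cons c₀ c : Fin (g + 1) → ℕ) sg (Fin.cons N a) n = mainSum s c₀ c N a y := by
  classical
  unfold mainSum
  have h1 : dom (Fin.cons c₀ c : Fin (g + 1) → ℕ) sg (Fin.cons N a) y =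
      (Icc 2 y).filter (fun n : ℕ => 2 ≤ (N : ℤ) - c₀ * n) := by
    unfold dom
    ext n
    rw [mem_filter, mem_filter, Fin.forall_fin_succ, vz_zero, mem_Icc]
    constructor
    · rintro ⟨h2, h3, -⟩
      exact ⟨h2, h3⟩
    · rintro ⟨h2, h3⟩
      refine ⟨h2, h3, fun i => ?_⟩
      rw [vz_succ]
      have h4 : n ≤ c i * n := Nat.le_mul_of_pos_left n (hc i)
      exact_mod_cast (by omega : 2 ≤ c i * n + a i)
  rw [h1]
  apply sum_congr rfl
  intro n _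
  unfold fz
  rw [Fin.prod_univ_succ, vz_zero]
  simp only [vz_succ, Int.cast_natCast]
  rw [mul_assoc]

lemma om_eq (s : Bool) (c₀ : ℕ) (c : Fin g → ℕ) (N : ℕ) (a : Fin g → ℕ) (p : ℕ) (hp : p.Prime) :
    om s (Fin.cons c₀ c : Fin (g + 1) → ℕ)
      (fun i => sg i * ((Fin.cons N a : Fin (g + 1) → ℕ) i : ℤ)) p = omega s c₀ c N a p := by
  classical
  have hpz := Nat.prime_iff_prime_int.1 hp
  unfold om omega
  congr 1
  ext r
  rw [mem_filter, mem_filter]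
  apply and_congr_right
  intro _
  have h0 : (∃ i : Fin (g + 1), (p : ℤ) ∣ ((Fin.cons c₀ c : Fin (g + 1) → ℕ) i : ℤ) * r +
      sg i * ((Fin.cons N a : Fin (g + 1) → ℕ) i : ℤ)) ↔
      (p : ℤ) ∣ (N : ℤ) - c₀ * r ∨ ∃ i, (p : ℤ) ∣ (c i : ℤ) * r + a i := by
    rw [Fin.exists_fin_succ]
    unfold sg
    simp only [Fin.cons_zero, Fin.cons_succ, one_mul]
    have e : (c₀ : ℤ) * r + -1 * N = -((N : ℤ) - c₀ * r) := by ring
    rw [e, dvd_neg]
  rw [h0]
  unfold value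
  rw [hpz.dvd_mul, hpz.dvd_mul, Prime.dvd_finset_prod_iff hpz]
  have h1 : (p : ℤ) ∣ (if s = true then ((r : ℕ) : ℤ) else 1) ↔ s = true ∧ p ∣ r := by
    by_cases hs : s = true
    · rw [if_pos hs, Int.natCast_dvd_natCast]
      exact ⟨fun h => ⟨hs, h⟩, fun h => h.2⟩
    · rw [if_neg hs]
      constructor
      · intro h
        exact absurd (isUnit_of_dvd_one h) hpz.not_unit
      · intro h
        exact absurd h.1 hs
  rw [h1]
  constructor
  · rintro (h | h | ⟨i, h⟩)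
    · exact Or.inl (Or.inl h)
    · exact Or.inl (Or.inr h)
    · exact Or.inr ⟨i, mem_univ _, h⟩
  · rintro ((h | h) | ⟨i, -, h⟩)
    · exact Or.inl h
    · exact Or.inr (Or.inl h)
    · exact Or.inr (Or.inr ⟨i, h⟩)

lemma product_eq (s : Bool) (c₀ : ℕ) (c : Fin g → ℕ) (N : ℕ) (a : Fin g → ℕ) :
    (fun z => Pool.Agent.T9h57.TP.PR (om s (Fin.cons c₀ c : Fin (g + 1) → ℕ)
      (fun i => sg i * ((Fin.cons N a : Fin (g + 1) → ℕ) i : ℤ))) (g + 1 + s.toNat) z) = product s c₀ c N a := by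
  funext z
  unfold Pool.Agent.T9h57.TP.PR Pool.Agent.T9h57.TP.Fv product Pool.Agent.H373R2.T7.pz
  apply prod_congr rfl
  intro p hp
  rw [om_eq s c₀ c N a p (mem_filter.1 hp).2]

lemma value_mod (s : Bool) (c₀ : ℕ) (c : Fin g → ℕ) (N : ℕ) (a : Fin g → ℕ) (p : ℕ) (n m : ℤ) (h : n ≡ m [ZMOD p]) :
    value s c₀ c N a n ≡ value s c₀ c N a m [ZMOD p] := by
  unfold value
  apply Int.ModEq.mul
  · apply Int.ModEq.mul
    · split_ifs
      · exact h
      · exact Int.ModEq.refl _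
    · exact Int.ModEq.sub (Int.ModEq.refl _) (h.mul_left _)
  · apply Int.ModEq.prod
    intro i _
    exact (h.mul_left _).add_right _

lemma om_lt (s : Bool) (c₀ : ℕ) (c : Fin g → ℕ) (N : ℕ) (a : Fin g → ℕ) (h : NoFixed s c₀ c N a) (p : ℕ)
    (hp : p.Prime) : omega s c₀ c N a p < p := by
  obtain ⟨n, hn⟩ := h p hp
  have hp0 : (0 : ℤ) < p := by exact_mod_cast hp.pos
  have h1 := Int.emod_nonneg n hp0.ne'
  have h2 := Int.emod_lt_of_pos n hp0
  unfold omega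
  have h3 : (range p).filter (fun n : ℕ => (p : ℤ) ∣ value s c₀ c N a n) ⊂ range p := by
    rw [filter_ssubset]
    refine ⟨(n % p).toNat, by rw [mem_range]; omega, fun h4 => hn ?_⟩
    rw [Int.toNat_of_nonneg h1] at h4
    have h5 := value_mod s c₀ c N a p (n % p) n (Int.mod_modEq n p)
    exact (Int.ModEq.dvd_iff h5).1 h4
  have h4 := card_lt_card h3
  rwa [card_range] at h4

lemma pos_eq (c₀ : ℕ) (hc₀ : 1 ≤ c₀) (c : Fin g → ℕ) (hc : ∀ i, 1 ≤ c i) (N : ℕ) (a : Fin g → ℕ) (x : ℕ)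
    (hN : N ≤ x) : Pool.Agent.H373R2.T7.posCount (Pool.Agent.T9h57.TP.lf (Fin.cons c₀ c : Fin (g + 1) → ℕ)) sg
      (Fin.cons N a) x = XN c₀ N := by
  classical
  unfold Pool.Agent.H373R2.T7.posCount XN
  rw [← Set.ncard_coe_finset]
  congr 1
  ext n
  rw [mem_coe, mem_filter, mem_Icc, Set.mem_setOf_eq, Fin.forall_fin_succ]
  have h0 : Pool.Agent.H373R2.T7.vl (Pool.Agent.T9h57.TP.lf (Fin.cons c₀ c : Fin (g + 1) → ℕ)) sg (Fin.cons N a) 0 n =
      (N : ℤ) - c₀ * n := by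
    rw [Pool.Agent.T9h57.TP.vl_lf]
    exact vz_zero c₀ c N a n
  have h1 : ∀ i : Fin g, Pool.Agent.H373R2.T7.vl (Pool.Agent.T9h57.TP.lf (Fin.cons c₀ c : Fin (g + 1) → ℕ)) sg
      (Fin.cons N a) i.succ n = ((c i * n + a i : ℕ) : ℤ) := by
    intro i
    rw [Pool.Agent.T9h57.TP.vl_lf]
    exact vz_succ c₀ c N a n i
  rw [h0]
  simp only [h1]
  constructor
  · rintro ⟨⟨h2, -⟩, h3, -⟩
    exact ⟨h2, by omega⟩
  · rintro ⟨h2, h3⟩
    have h4 : n ≤ c₀ * n := Nat.le_mul_of_pos_left n hc₀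
    have h5 : (n : ℤ) ≤ c₀ * n := by exact_mod_cast h4
    refine ⟨⟨h2, by omega⟩, by omega, fun i => ?_⟩
    have h6 : n ≤ c i * n := Nat.le_mul_of_pos_left n (hc i)
    exact_mod_cast (by omega : 1 ≤ c i * n + a i)

lemma Q_eq (s : Bool) (c₀ : ℕ) (hc₀ : 1 ≤ c₀) (c : Fin g → ℕ) (N : ℕ) (a : Fin g → ℕ) (x : ℕ) (hN : N ≤ x) :
    Q₁ s c₀ c N a = count s c₀ c N a x := by
  classical
  unfold Q₁ count
  rw [← Set.ncard_coe_finset]
  congr 1
  ext n
  rw [mem_coe, mem_filter, mem_Icc, Set.mem_setOf_eq]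
  constructor
  · rintro ⟨h2, h3⟩
    have h4 := h3.2.1.pos
    have h5 : n ≤ c₀ * n := Nat.le_mul_of_pos_left n hc₀
    have h6 : (n : ℤ) ≤ c₀ * n := by exact_mod_cast h5
    exact ⟨⟨h2, by omega⟩, h3⟩
  · rintro ⟨⟨h2, -⟩, h3⟩
    exact ⟨h2, h3⟩

lemma good_iff (s : Bool) (c₀ : ℕ) (hc₀ : 1 ≤ c₀) (c : Fin g → ℕ) (hc : ∀ i, 1 ≤ c i) (ε : ℝ) (C x N : ℕ)
    (hN : N ≤ x) (a : Fin g → ℕ)
    (h : GoodZ s (Fin.cons c₀ c : Fin (g + 1) → ℕ) sg ε C x (Fin.cons N a)) : Good s c₀ c ε C x N a := by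
  obtain ⟨CF, h1, h2, h3⟩ := h
  refine ⟨CF, ?_, fun y hy => ?_, fun hfix hX => ?_⟩
  · unfold IsSeries
    rw [← product_eq]
    exact h1
  · have h4 := h2 y hy
    rw [cnt_eq, main_eq s c₀ c hc] at h4
    exact h4
  · have h4 := h3 (fun p hp => by
      rw [om_eq s c₀ c N a p hp]
      exact om_lt s c₀ c N a hfix p hp) x le_rfl
    rw [pos_eq c₀ hc₀ c hc N a x hN, cnt_eq] at h4
    rw [Q_eq s c₀ hc₀ c N a x hN]
    exact h4 hX

/-- Let `s` be true or false, `g ≥ 0`, let `c₀, c₁, …, c_g ≥ 1` be integers, `ρ > 0`, `ε > 0`, and let `A`, `C` be given.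
There is `e` such that for all `S` and all sufficiently large `x` there is a finite set `D` of at most `(log x) ^ e`
integers, the radical of each of which is larger than `(log x) ^ S`, with the following property. Let
`1 ≤ q₀, …, q_g ≤ x ^ (2 / 3 - ρ)` be integers which are not divisible by a member of `D`. Then for ALL integers
`b₀, …, b_g` all but at most `(x / q₀) ⋯ (x / q_g) / (log x) ^ A` of the `(N, a₁, …, a_g)` with `1 ≤ N, a_i ≤ x`,
`N ≡ b₀ (mod q₀)`, `a_i ≡ b_i (mod q_i)` satisfy `Good s c₀ c ε C x N a`. -/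
theorem result (s : Bool) (g : ℕ) (c₀ : ℕ) (hc₀ : 1 ≤ c₀) (c : Fin g → ℕ) (hc : ∀ i, 1 ≤ c i) (ρ : ℝ) (hρ : 0 < ρ)
    (ε : ℝ) (hε : 0 < ε) (A C : ℕ) :
    ∃ e : ℕ, ∀ S : ℕ, ∃ x₀ : ℕ, ∀ x : ℕ, x₀ ≤ x → ∃ D : Finset ℕ, (D.card : ℝ) ≤ Real.log x ^ e ∧
      (∀ d ∈ D, Real.log x ^ S < (radical d : ℝ)) ∧
      ∀ (q₀ : ℕ) (q : Fin g → ℕ), 1 ≤ q₀ → (q₀ : ℝ) ≤ (x : ℝ) ^ (2 / 3 - ρ) → (∀ d ∈ D, ¬ d ∣ q₀) →
        (∀ i, 1 ≤ q i ∧ (q i : ℝ) ≤ (x : ℝ) ^ (2 / 3 - ρ) ∧ ∀ d ∈ D, ¬ d ∣ q i) →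
        ∀ (b₀ : ℤ) (b : Fin g → ℤ), ((exceptional s c₀ c ε C x q₀ q b₀ b).ncard : ℝ) ≤
          ((x : ℝ) / q₀ * ∏ i, (x : ℝ) / q i) / Real.log x ^ A := by
  have hc' : ∀ i, 1 ≤ (Fin.cons c₀ c : Fin (g + 1) → ℕ) i := by
    rw [Fin.forall_fin_succ]
    simp only [Fin.cons_zero, Fin.cons_succ]
    exact ⟨hc₀, hc⟩
  have hρ3 : min ρ (1 / 3) ≤ 1 / 3 := min_le_right _ _
  obtain ⟨e, h0⟩ := Pool.Agent.T9h57.TG.tg_few s (Fin.cons c₀ c : Fin (g + 1) → ℕ) hc' (by omega) sg sg_or ε hε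
    (min ρ (1 / 3)) (lt_min hρ (by norm_num)) hρ3 A C
  refine ⟨e, fun S => ?_⟩
  obtain ⟨x₀, h0⟩ := h0 S
  refine ⟨x₀ + 1, fun x hx => ?_⟩
  obtain ⟨D, hD1, hD2, h1⟩ := h0 x (by omega)
  have hx1 : (1 : ℝ) ≤ x := by exact_mod_cast (by omega : 1 ≤ x)
  have hpow : (x : ℝ) ^ (2 / 3 - ρ) ≤ (x : ℝ) ^ (2 / 3 - min ρ (1 / 3)) := by
    apply Real.rpow_le_rpow_of_exponent_le hx1
    have : min ρ (1 / 3) ≤ ρ := min_le_left _ _
    linarith
  refine ⟨D, hD1, hD2, fun q₀ q hq1 hq2 hq3 hq b₀ b => ?_⟩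
  have h2 := h1 (Fin.cons q₀ q : Fin (g + 1) → ℕ) (by
    rw [Fin.forall_fin_succ]
    simp only [Fin.cons_zero, Fin.cons_succ]
    exact ⟨⟨hq1, hq2.trans hpow, hq3⟩, fun i => ⟨(hq i).1, (hq i).2.1.trans hpow, (hq i).2.2⟩⟩)
    (Fin.cons b₀ b : Fin (g + 1) → ℤ)
  rw [Fin.prod_univ_succ] at h2
  simp only [Fin.cons_zero, Fin.cons_succ] at h2
  refine le_trans ?_ h2
  rw [Nat.cast_le]
  refine Set.ncard_le_ncard_of_injOn (fun v : ℕ × (Fin g → ℕ) => (Fin.cons v.1 v.2 : Fin (g + 1) → ℕ)) ?_ ?_ ?_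
  · rintro ⟨N, a⟩ ⟨⟨h3, h4, h5⟩, h6, h7⟩
    simp only at h3 h4 h5 h6 h7 ⊢
    refine ⟨?_, fun h8 => h7 (good_iff s c₀ hc₀ c hc ε C x N h4 a h8)⟩
    rw [Fin.forall_fin_succ]
    simp only [Fin.cons_zero, Fin.cons_succ]
    exact ⟨⟨h3, h4, h5⟩, h6⟩
  · rintro ⟨N, a⟩ - ⟨N', a'⟩ - h
    simp only at h
    have h3 := Fin.cons_inj.1 h
    rw [h3.1, h3.2]
  · apply Set.Finite.subset (Fintype.piFinset (fun _ : Fin (g + 1) => Icc 1 x)).finite_toSet
    rintro v ⟨h3, -⟩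
    rw [mem_coe, Fintype.mem_piFinset]
    intro i
    rw [mem_Icc]
    exact ⟨(h3 i).1, (h3 i).2.1⟩

end Pool.Agent.Results.MP_0bf1d2_nt.LinearFormsLargeRadical
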