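import Pool.Agent.T9h51.LR.Sys

/-!
# Schinzel's Goldbach-type hypothesis for systems of linear polynomials whose constant terms are given by local conditions

`F_1 = x`, `F_i = a_i x + b_i` (`2 ≤ i ≤ g + 1`) and `G = a_0 x + b_0`. The formula of the hypothesis is proved for all slopes
up to a power of the logarithm, for all the numbers `N` and constant terms `b_i` close to almost all vectors of numbers
`c_i + κ_i v_i`, where the residue of `v_i < q_i` modulo each prime factor `l` of the squarefree number `q_i` lies in a given set;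
for instance the `v_i` are the quadratic residues modulo all the primes up to `log M`. For one polynomial `F_1 = x` only `N` is
averaged, over such a thin set. The numbers in these sets are less than `M / log ^ A M` for each `A`, and they are not
equidistributed modulo small primes.

Definitions used (in `Pool.Agent.T9h51.LR`):
* `Flat m δ y`: `|∑ i, exp (2 π i h y_i / m)| ≤ δ #ι` for all integers `h` not divisible by `m`;
* `S q A`: the integers `0 ≤ v < q` with `v mod l ∈ A l` for all the prime factors `l` of `q`;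
* `Regular η l A`: (i) `Flat l (l ^ (-η))` for the elements of `A`, or (ii) `A` is a coset of a subgroup of the multiplicative
  group with at least `l ^ (1 / 2 + η)` elements, or (iii) at most `l ^ (1 - 2 η)` residues are not in `A`;
* `QR q`: the integers `0 ≤ v < q` which are quadratic residues prime to `l` modulo all the odd prime factors `l` of `q`.

The proof: the additive energy of a high order of the sets is nearly minimal; the passage from the energy to systems of linear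
forms is from the starting files (`Pool.Agent.TH935`).
-/

set_option autoImplicit false

namespace Pool.Agent.Results.MP_0bf1d2_nt.LocalConditionSystems

open Finset Filter Topology
open Pool.Agent.T9h51.LR
open Pool.Agent.TH935.TF (HW consA consB om Gz Fq cn Adm Dist)

variable {g : ℕ}

/-- `F_1(n) = n`, the other `F_i(n) = a i * n + b i` and `N - G(n) = N - (a₀ n + b₀)` are positive primes -/
def AllPrime (a b : Fin g → ℤ) (a₀ b₀ N : ℤ) (n : ℕ) : Prop :=
  n.Prime ∧ (∀ i, (a i * n + b i).toNat.Prime) ∧ (N - (a₀ * n + b₀)).toNat.Prime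

/-- `Q_1(N)`: the number of these `n ≥ 1` -/
noncomputable def Q₁ (a b : Fin g → ℤ) (a₀ b₀ N : ℤ) : ℕ := {n : ℕ | 1 ≤ n ∧ AllPrime a b a₀ b₀ N n}.ncard

/-- `X(N)`: the number of the `n ≥ 1` with `N - G(n) > 0` -/
noncomputable def X (a₀ b₀ N : ℤ) : ℕ := {n : ℕ | 1 ≤ n ∧ 0 < N - (a₀ * n + b₀)}.ncard

/-- `ω_N(p)`: the number of zeros modulo `p` of `x ∏ (a i x + b i) (N - G(x))` -/
def omega (a b : Fin g → ℤ) (a₀ b₀ N : ℤ) (p : ℕ) : ℕ :=
  ((range p).filter (fun r : ℕ => (p : ℤ) ∣ r * (∏ i, (a i * r + b i)) * (N - (a₀ * r + b₀)))).card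

/-- the product of Schinzel's local factors over the primes `p ≤ z`, there are `g + 2` polynomials -/
noncomputable def sing (a b : Fin g → ℤ) (a₀ b₀ N : ℤ) (z : ℕ) : ℝ :=
  ∏ p ∈ (Icc 1 z).filter Nat.Prime, (1 - (omega a b a₀ b₀ N p : ℝ) / p) / (1 - 1 / (p : ℝ)) ^ (g + 2)

/-- the product of the polynomials has no fixed prime divisor -/
def NoFixed (a b : Fin g → ℤ) (a₀ b₀ N : ℤ) : Prop :=
  ∀ p : ℕ, p.Prime → ∃ n : ℤ, ¬ (p : ℤ) ∣ n * (∏ i, (a i * n + b i)) * (N - (a₀ * n + b₀))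

/-- **Schinzel's formula** with a relative error of at most `ε`: the singular series converges to a positive number `S`, and
`Q_1(N) = (1 + θ ε) S X / (log X) ^ (g + 2)`, `|θ| ≤ 1` -/
def Formula (ε : ℝ) (a b : Fin g → ℤ) (a₀ b₀ N : ℤ) : Prop :=
  ∃ S : ℝ, 0 < S ∧ Tendsto (sing a b a₀ b₀ N) atTop (𝓝 S) ∧
    |(Q₁ a b a₀ b₀ N : ℝ) - S * (X a₀ b₀ N / Real.log (X a₀ b₀ N) ^ (g + 2))| ≤
      ε * (S * (X a₀ b₀ N / Real.log (X a₀ b₀ N) ^ (g + 2)))

/-- The formula holds for all slopes `1 ≤ a_i ≤ log ^ D M` and all `|b₀| ≤ log ^ W M`, if the polynomials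
`F_1 = x` and `F_i = a_i x + b_i`, `b_i ≥ 0`, are distinct, there is no fixed prime divisor and
`X(N) ≥ M / log ^ D M`. Here `β = (N, b_2, ..., b_(g+1))`. -/
def Holds (ε : ℝ) (D W M : ℕ) (β : Fin (g + 1) → ℤ) : Prop :=
  ∀ (a : Fin g → ℤ) (a₀ b₀ : ℤ), (∀ i, 1 ≤ a i ∧ (a i : ℝ) ≤ Real.log M ^ D) → 1 ≤ a₀ → (a₀ : ℝ) ≤ Real.log M ^ D →
    |(b₀ : ℝ)| ≤ Real.log M ^ W → (∀ i : Fin g, 0 ≤ β i.succ) → (∀ i : Fin g, ¬ (a i = 1 ∧ β i.succ = 0)) →
    (∀ i j : Fin g, i ≠ j → ¬ (a i = a j ∧ β i.succ = β j.succ)) → NoFixed a (fun i => β i.succ) a₀ b₀ (β 0) →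
    (M : ℝ) / Real.log M ^ D ≤ X a₀ b₀ (β 0) → Formula ε a (fun i => β i.succ) a₀ b₀ (β 0)

lemma X_eq (a₀ b₀ N : ℤ) (ha : 1 ≤ a₀) (n : ℕ) : (1 ≤ n ∧ 0 < N - (a₀ * n + b₀)) ↔
    n ∈ Ioc 0 ((N - b₀ - 1) / a₀).toNat := by
  rw [mem_Ioc]
  have h1 : 0 < N - (a₀ * n + b₀) ↔ (n : ℤ) ≤ (N - b₀ - 1) / a₀ := by
    rw [Int.le_ediv_iff_mul_le (by omega)]
    constructor <;> intro h <;> nlinarith
  rw [h1]
  omega

lemma dvd3 (a b : Fin g → ℤ) (a₀ b₀ N : ℤ) (p : ℕ) (hp : p.Prime) (n : ℤ) :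
    (p : ℤ) ∣ n * (∏ i, (a i * n + b i)) * (N - (a₀ * n + b₀)) ↔
      ∃ i, (p : ℤ) ∣ consA (Fin.cons (-a₀) a : Fin (g + 1) → ℤ) i * n + consB (Fin.cons (N - b₀) b : Fin (g + 1) → ℤ) i := by
  have hpp := Nat.prime_iff_prime_int.1 hp
  rw [Fin.exists_fin_succ, Fin.exists_fin_succ]
  change _ ↔ (p : ℤ) ∣ 1 * n + 0 ∨ (p : ℤ) ∣ -a₀ * n + (N - b₀) ∨ ∃ i, (p : ℤ) ∣ a i * n + b i
  rw [hpp.dvd_mul, hpp.dvd_mul, hpp.dvd_finsetProd_iff]
  have e : N - (a₀ * n + b₀) = -a₀ * n + (N - b₀) := by ring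
  rw [e, one_mul, add_zero]
  constructor
  · rintro ((h | ⟨i, -, h⟩) | h)
    · exact Or.inl h
    · exact Or.inr (Or.inr ⟨i, h⟩)
    · exact Or.inr (Or.inl h)
  · rintro (h | h | ⟨i, h⟩)
    · exact Or.inl (Or.inl h)
    · exact Or.inr h
    · exact Or.inl (Or.inr ⟨i, mem_univ _, h⟩)

lemma sing_eq (a b : Fin g → ℤ) (a₀ b₀ N : ℤ) : sing a b a₀ b₀ N =
    fun z => Gz (om (consA (Fin.cons (-a₀) a : Fin (g + 1) → ℤ)) (consB (Fin.cons (N - b₀) b : Fin (g + 1) → ℤ))) (g + 1 + 1) z := by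
  funext z
  unfold sing Gz Fq Pool.Agent.H373R2.T7.pz
  apply prod_congr rfl
  intro p hp
  have h1 : omega a b a₀ b₀ N p = om (consA (Fin.cons (-a₀) a : Fin (g + 1) → ℤ)) (consB (Fin.cons (N - b₀) b : Fin (g + 1) → ℤ)) p := by
    unfold omega om
    congr 1
    apply filter_congr
    intro r _
    exact dvd3 a b a₀ b₀ N p (mem_filter.1 hp).2 r
  rw [h1]

/-- from the windows to the formula -/
lemma holds_of (B D W : ℕ) (ε : ℝ) (hε : 0 < ε) : ∃ M₀ : ℕ, ∀ M : ℕ, M₀ ≤ M → ∀ β : Fin (g + 1) → ℤ,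
    (∀ i, |β i| ≤ B * M) →
    (∀ b₀ : ℤ, |(b₀ : ℝ)| ≤ Real.log M ^ W →
      HW consA consB (ε / 4) D (B + 1) D M (Fin.cons (β 0 - b₀) (fun i : Fin g => β i.succ) : Fin (g + 1) → ℤ)) →
    Holds ε D W M β := by
  obtain ⟨n1, h1⟩ := log_ratio (g + 2) D (B + 1) (min (ε / 2) (1 / 2)) (lt_min (by positivity) (by norm_num))
  obtain ⟨n2, h2⟩ := Pool.Agent.H373R2.T7.ev_L' 1
  obtain ⟨n3, h3⟩ := Pool.Agent.H373R2.T7.ev_log' W 1
  refine ⟨n1 + n2 + n3 + 3, fun M hM β hβ hHW => ?_⟩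
  intro a a₀ b₀ ha ha1 ha2 hb₀ hβ0 hd1 hd2 hfix hX
  have hL1 := h2 M (by omega)
  have hbM := h3 M (by omega)
  have hM3 : (3 : ℝ) ≤ M := by exact_mod_cast (by omega : 3 ≤ M)
  have hML : (0 : ℝ) < (M : ℝ) / Real.log M ^ D := by positivity
  obtain ⟨Y, hY⟩ : ∃ Y, Y = ((β 0 - b₀ - 1) / a₀).toNat := ⟨_, rfl⟩
  have hXY : X a₀ b₀ (β 0) = Y := by
    unfold X
    have : {n : ℕ | 1 ≤ n ∧ 0 < β 0 - (a₀ * n + b₀)} = ((Ioc 0 Y : Finset ℕ) : Set ℕ) := by
      ext n
      rw [Set.mem_ofPred_eq, X_eq a₀ b₀ (β 0) ha1 n, mem_coe, hY]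
    rw [this, Set.ncard_coe_finset, Nat.card_Ioc]
    omega
  rw [hXY] at hX
  have hY0 : (0 : ℝ) < Y := lt_of_lt_of_le hML hX
  have hYpos : 0 < Y := by exact_mod_cast hY0
  have hYmem : 0 < β 0 - (a₀ * (Y : ℤ) + b₀) := by
    have := (X_eq a₀ b₀ (β 0) ha1 Y).2 (by rw [mem_Ioc]; omega)
    exact this.2
  have hNb : 0 < β 0 - b₀ := by
    have : 0 < a₀ * (Y : ℤ) := by positivity
    omega
  have hbM' : |(b₀ : ℝ)| ≤ M := by
    rw [one_mul] at hbM
    refine hb₀.trans (hbM.trans ?_)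
    rw [Real.sqrt_le_left (by linarith)]
    nlinarith
  have hYB : Y ≤ (B + 1) * M := by
    have h4 : (Y : ℤ) ≤ β 0 - b₀ := by nlinarith
    have h5 : |b₀| ≤ (M : ℤ) := by exact_mod_cast (by simpa using hbM' : ((|b₀| : ℤ) : ℝ) ≤ M)
    have h6 := le_abs_self (β 0)
    have h7 := neg_abs_le b₀
    have h8 := hβ 0
    have : (Y : ℤ) ≤ ((B + 1) * M : ℕ) := by
      push_cast
      linarith
    exact_mod_cast this
  -- the system
  have hα0 : ∀ i, (Fin.cons (-a₀) a : Fin (g + 1) → ℤ) i ≠ 0 := by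
    intro i
    refine Fin.cases ?_ (fun i => ?_) i
    · rw [Fin.cons_zero]; omega
    · rw [Fin.cons_succ]; have := (ha i).1; omega
  have hαL : ∀ i, (((Fin.cons (-a₀) a : Fin (g + 1) → ℤ) i).natAbs : ℝ) ≤ Real.log M ^ D := by
    intro i
    refine Fin.cases ?_ (fun i => ?_) i
    · rw [Fin.cons_zero, Nat.cast_natAbs, abs_neg, abs_of_pos (by omega)]
      exact ha2
    · rw [Fin.cons_succ, Nat.cast_natAbs, abs_of_pos (by have := (ha i).1; omega)]
      exact (ha i).2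
  have hadm : Adm (consA (Fin.cons (-a₀) a : Fin (g + 1) → ℤ))
      (consB (Fin.cons (β 0 - b₀) (fun i : Fin g => β i.succ) : Fin (g + 1) → ℤ)) := by
    intro p hp
    obtain ⟨n, hn⟩ := hfix p hp
    refine ⟨n, fun i hi => hn ?_⟩
    exact (dvd3 a _ a₀ b₀ (β 0) p hp n).2 ⟨i, hi⟩
  have hdist : Dist (consA (Fin.cons (-a₀) a : Fin (g + 1) → ℤ))
      (consB (Fin.cons (β 0 - b₀) (fun i : Fin g => β i.succ) : Fin (g + 1) → ℤ)) := by
    have cA0 : consA (Fin.cons (-a₀) a : Fin (g + 1) → ℤ) 0 = 1 := rfl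
    have cB0 : consB (Fin.cons (β 0 - b₀) (fun i : Fin g => β i.succ) : Fin (g + 1) → ℤ) 0 = 0 := rfl
    have cA1 : consA (Fin.cons (-a₀) a : Fin (g + 1) → ℤ) (Fin.succ 0) = -a₀ := rfl
    have cB1 : consB (Fin.cons (β 0 - b₀) (fun i : Fin g => β i.succ) : Fin (g + 1) → ℤ) (Fin.succ 0) = β 0 - b₀ := rfl
    have cA2 : ∀ i : Fin g, consA (Fin.cons (-a₀) a : Fin (g + 1) → ℤ) i.succ.succ = a i := fun _ => rfl
    have cB2 : ∀ i : Fin g, consB (Fin.cons (β 0 - b₀) (fun i : Fin g => β i.succ) : Fin (g + 1) → ℤ) i.succ.succ = β i.succ :=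
      fun _ => rfl
    intro i j
    refine Fin.cases ?_ (fun i => ?_) i <;> refine Fin.cases ?_ (fun j => ?_) j
    · intro h; exact absurd rfl h
    · intro _
      refine Fin.cases ?_ (fun j => ?_) j
      · rw [cA0, cB0, cA1, cB1]
        constructor <;> rintro ⟨h4, h5⟩ <;> omega
      · rw [cA0, cB0, cA2, cB2]
        have h6 := (ha j).1
        constructor
        · rintro ⟨h4, h5⟩; exact hd1 j ⟨h4.symm, h5.symm⟩
        · rintro ⟨h4, h5⟩; omega
    · intro _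
      refine Fin.cases ?_ (fun i => ?_) i
      · rw [cA0, cB0, cA1, cB1]
        constructor <;> rintro ⟨h4, h5⟩ <;> omega
      · rw [cA0, cB0, cA2, cB2]
        have h6 := (ha i).1
        constructor
        · rintro ⟨h4, h5⟩; exact hd1 i ⟨h4, h5⟩
        · rintro ⟨h4, h5⟩; omega
    · refine Fin.cases ?_ (fun i => ?_) i <;> refine Fin.cases ?_ (fun j => ?_) j
      · intro h; exact absurd rfl h
      · intro _
        rw [cA1, cB1, cA2, cB2]
        have h6 := (ha j).1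
        have h7 := hβ0 j
        constructor <;> rintro ⟨h4, h5⟩ <;> omega
      · intro _
        rw [cA1, cB1, cA2, cB2]
        have h6 := (ha i).1
        have h7 := hβ0 i
        constructor <;> rintro ⟨h4, h5⟩ <;> omega
      · intro hij
        rw [cA2, cB2, cA2, cB2]
        have h6 := (ha i).1
        have h7 := (ha j).1
        constructor
        · exact hd2 i j fun h => hij (by rw [h])
        · rintro ⟨h4, h5⟩; omega
  obtain ⟨S, hS, hlim, hwin⟩ := hHW b₀ hb₀ _ hα0 hαL hadm hdist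
  refine ⟨S, hS, by rw [sing_eq]; exact hlim, ?_⟩
  have hw := hwin 0 Y (Nat.zero_le _) hYB (by rw [Nat.cast_zero, sub_zero]; exact hX)
  have hQ : Q₁ a (fun i => β i.succ) a₀ b₀ (β 0) = cn (consA (Fin.cons (-a₀) a : Fin (g + 1) → ℤ))
      (consB (Fin.cons (β 0 - b₀) (fun i : Fin g => β i.succ) : Fin (g + 1) → ℤ)) 0 Y := by
    unfold Q₁ cn
    rw [← Set.ncard_coe_finset]
    congr 1
    ext n
    rw [Set.mem_ofPred_eq, mem_coe, mem_filter, Fin.forall_fin_succ, Fin.forall_fin_succ]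
    change (1 ≤ n ∧ AllPrime a (fun i => β i.succ) a₀ b₀ (β 0) n) ↔ n ∈ Ioc 0 Y ∧ (1 * (n : ℤ) + 0).natAbs.Prime ∧
      (-a₀ * (n : ℤ) + (β 0 - b₀)).natAbs.Prime ∧ ∀ i : Fin g, (a i * (n : ℤ) + β i.succ).natAbs.Prime
    have e1 : (1 * (n : ℤ) + 0).natAbs = n := by omega
    have e2 : -a₀ * (n : ℤ) + (β 0 - b₀) = β 0 - (a₀ * n + b₀) := by ring
    have e3 : ∀ i : Fin g, (a i * (n : ℤ) + β i.succ).natAbs = (a i * (n : ℤ) + β i.succ).toNat := by
      intro i
      have h4 : 0 ≤ a i * (n : ℤ) := mul_nonneg (by have := (ha i).1; omega) (Int.natCast_nonneg _)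
      have h5 := hβ0 i
      omega
    rw [e1, e2]
    simp only [e3]
    unfold AllPrime
    constructor
    · rintro ⟨h4, h5, h6, h7⟩
      have h8 := h7.pos
      have h9 : 0 < β 0 - (a₀ * n + b₀) := by omega
      refine ⟨by rw [hY]; exact (X_eq a₀ b₀ (β 0) ha1 n).1 ⟨h4, h9⟩, h5, ?_, h6⟩
      have : (β 0 - (a₀ * n + b₀)).natAbs = (β 0 - (a₀ * n + b₀)).toNat := by omega
      rw [this]
      exact h7
    · rintro ⟨h4, h5, h6, h7⟩
      rw [hY] at h4
      obtain ⟨h8, h9⟩ := (X_eq a₀ b₀ (β 0) ha1 n).2 h4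
      refine ⟨h8, h5, h7, ?_⟩
      have : (β 0 - (a₀ * n + b₀)).natAbs = (β 0 - (a₀ * n + b₀)).toNat := by omega
      rw [← this]
      exact h6
  rw [hQ, hXY]
  have hr := h1 M (by omega) Y hX hYB
  rw [Nat.cast_zero, sub_zero] at hw
  obtain ⟨Z, hZ⟩ : ∃ Z : ℝ, Z = (cn (consA (Fin.cons (-a₀) a : Fin (g + 1) → ℤ))
      (consB (Fin.cons (β 0 - b₀) (fun i : Fin g => β i.succ) : Fin (g + 1) → ℤ)) 0 Y : ℝ) := ⟨_, rfl⟩
  rw [← hZ] at hw ⊢
  have hlogM : 0 < Real.log (M : ℝ) := by linarith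
  have hlY : Real.log (Y : ℝ) ≠ 0 := by
    intro h4
    rw [h4, zero_div, zero_pow (by omega), zero_sub, abs_neg, abs_one] at hr
    have := hr.trans (min_le_right _ _)
    norm_num at this
  have hlY0 : 0 < Real.log (Y : ℝ) := lt_of_le_of_ne (Real.log_natCast_nonneg Y) (Ne.symm hlY)
  obtain ⟨r, hrd⟩ : ∃ r : ℝ, r = (Real.log Y / Real.log M) ^ (g + 2) := ⟨_, rfl⟩
  rw [← hrd] at hr
  obtain ⟨T, hT⟩ : ∃ T : ℝ, T = S * (Y / Real.log (Y : ℝ) ^ (g + 2)) := ⟨_, rfl⟩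
  have hT0 : 0 < T := by rw [hT]; positivity
  have e1 : S * (Y : ℝ) / Real.log M ^ (g + 1 + 1) = r * T := by
    rw [hrd, hT, div_pow]
    field_simp
  rw [e1] at hw
  rw [← hT]
  have hr1 : |r - 1| ≤ ε / 2 := hr.trans (min_le_left _ _)
  have hr2 : |r - 1| ≤ 1 / 2 := hr.trans (min_le_right _ _)
  have hr3 := (abs_le.1 hr2).2
  have hr4 := (abs_le.1 hr2).1
  have e3 : |r * T - T| ≤ ε / 2 * T := by
    have : r * T - T = (r - 1) * T := by ring
    rw [this, abs_mul, abs_of_pos hT0]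
    exact mul_le_mul_of_nonneg_right hr1 hT0.le
  have e4 : ε / 4 * (r * T) ≤ ε / 2 * T := by
    have h4 : r * T ≤ 2 * T := mul_le_mul_of_nonneg_right (by linarith) hT0.le
    have h5 := mul_le_mul_of_nonneg_left h4 (by positivity : (0 : ℝ) ≤ ε / 4)
    linarith
  have e5 : |Z - r * T| ≤ ε / 2 * T := hw.trans e4
  calc |Z - T| = |(Z - r * T) + (r * T - T)| := by congr 1; ring
    _ ≤ |Z - r * T| + |r * T - T| := abs_add_le _ _
    _ ≤ ε / 2 * T + ε / 2 * T := add_le_add e5 e3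
    _ = ε * T := by ring

open Classical in
/-- **Schinzel's formula for systems of linear polynomials with constant terms given by local conditions.** Let `g ≥ 0`, `η > 0`,
`ε > 0`, `p₀`, `B`, `C`, `D`, `W`, `U` and integers `κ_0, ..., κ_g ≠ 0` be fixed, and let `M` be large. For `0 ≤ i ≤ g` let
`q_i` be squarefree, `M / log ^ C M ≤ q_i ≤ B M`, let `A_i(l)` be regular sets of residues modulo the prime factors `l > p₀` of
`q_i` and arbitrary sets of residues modulo the smaller prime factors, let `S_i` be the set of all `0 ≤ v < q_i` whose residues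
modulo the prime factors `l` of `q_i` lie in `A_i(l)`, and let `|c_i| ≤ B M`.

Then all the vectors `v` with `v_i ∈ S_i`, except for a proportion of at most `1 / log ^ U M`, have the following property:
for ALL the integral vectors `β = (N, b_2, ..., b_(g+1))` with `|β_i - (c_i + κ_i v_i)| ≤ log ^ W M`, `b_i ≥ 0`, for all slopes
`1 ≤ a_i ≤ log ^ D M` and all `|b₀| ≤ log ^ W M` Schinzel's formula holds, with a relative error of at most `ε`, for the
polynomials `F_1 = x`, `F_i = a_i x + b_i`, `G = a₀ x + b₀` and the number `N`, if the `F_i` are distinct, if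
`F_1 ... F_(g+1) (N - G)` has no fixed prime divisor and if `X(N) ≥ M / log ^ D M`. -/
theorem result (g p₀ B C D W U : ℕ) (η ε : ℝ) (hη : 0 < η) (hε : 0 < ε) (κ : Fin (g + 1) → ℤ) (hκ : ∀ i, κ i ≠ 0) :
    (∃ M₀ : ℕ, ∀ M : ℕ, M₀ ≤ M → ∀ (q : Fin (g + 1) → ℕ) (A : Fin (g + 1) → ∀ l : ℕ, Finset (ZMod l))
      (c : Fin (g + 1) → ℤ), (∀ i, Squarefree (q i) ∧ (M : ℝ) ≤ q i * Real.log M ^ C ∧ q i ≤ B * M ∧ |c i| ≤ B * M) →
      (∀ i, ∀ l ∈ (q i).primeFactors, p₀ < l → Regular η l (A i l)) →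
      (((Fintype.piFinset (fun i => S (q i) (A i))).filter (fun v : Fin (g + 1) → ℕ =>
        ¬ ∀ β : Fin (g + 1) → ℤ, (∀ i, |((β i - (c i + κ i * v i) : ℤ) : ℝ)| ≤ Real.log M ^ W) →
          Holds ε D W M β)).card : ℝ) ≤ (∏ i, ((S (q i) (A i)).card : ℝ)) / Real.log M ^ U) ∧
    (∃ M₀ : ℕ, ∀ M : ℕ, M₀ ≤ M → ∀ (q : Fin (g + 1) → ℕ) (c : Fin (g + 1) → ℤ),
      (∀ i, Squarefree (q i) ∧ (M : ℝ) ≤ q i * Real.log M ^ C ∧ q i ≤ B * M ∧ |c i| ≤ B * M) →
      (((Fintype.piFinset (fun i => QR (q i))).filter (fun v : Fin (g + 1) → ℕ =>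
        ¬ ∀ β : Fin (g + 1) → ℤ, (∀ i, |((β i - (c i + κ i * v i) : ℤ) : ℝ)| ≤ Real.log M ^ W) →
          Holds ε D W M β)).card : ℝ) ≤ (∏ i, ((QR (q i)).card : ℝ)) / Real.log M ^ U) := by
  have main : ∀ (η : ℝ), 0 < η → ∀ p₀ : ℕ, ∃ M₀ : ℕ, ∀ M : ℕ, M₀ ≤ M → ∀ (q : Fin (g + 1) → ℕ)
      (A : Fin (g + 1) → ∀ l : ℕ, Finset (ZMod l))
      (c : Fin (g + 1) → ℤ), (∀ i, Squarefree (q i) ∧ (M : ℝ) ≤ q i * Real.log M ^ C ∧ q i ≤ B * M ∧ |c i| ≤ B * M) →
      (∀ i, ∀ l ∈ (q i).primeFactors, p₀ < l → Regular η l (A i l)) →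
      (((Fintype.piFinset (fun i => S (q i) (A i))).filter (fun v : Fin (g + 1) → ℕ =>
        ¬ ∀ β : Fin (g + 1) → ℤ, (∀ i, |((β i - (c i + κ i * v i) : ℤ) : ℝ)| ≤ Real.log M ^ W) →
          Holds ε D W M β)).card : ℝ) ≤ (∏ i, ((S (q i) (A i)).card : ℝ)) / Real.log M ^ U := by
    intro η hη p₀
    obtain ⟨h, n1, -, h1⟩ := set_energy η hη p₀ C
    obtain ⟨Bs, hBs⟩ : ∃ Bs : ℕ, Bs = B + (∑ i, (κ i).natAbs) * B + 1 := ⟨_, rfl⟩
    obtain ⟨n2, h2⟩ := near (g + 1) h D Bs (C + 1) D (W + 1) U (by omega) (ε / 4) (by positivity)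
    obtain ⟨n3, h3⟩ := holds_of (g := g) Bs D W ε hε
    obtain ⟨n4, h4⟩ := Pool.Agent.H373R2.T7.ev_L' 2
    obtain ⟨n5, h5⟩ := Pool.Agent.H373R2.T7.ev_log' W 1
    refine ⟨n1 + n2 + n3 + n4 + n5 + 3, fun M hM q A c hq hA => ?_⟩
    have hL := h4 M (by omega)
    have hWM := h5 M (by omega)
    have hM3 : (3 : ℝ) ≤ M := by exact_mod_cast (by omega : 3 ≤ M)
    have hWM' : Real.log M ^ W ≤ M := by
      rw [one_mul] at hWM
      refine hWM.trans ?_
      rw [Real.sqrt_le_left (by linarith)]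
      nlinarith
    have hκi : ∀ i, (κ i).natAbs ≤ ∑ i, (κ i).natAbs := fun i =>
      single_le_sum (f := fun i => (κ i).natAbs) (fun _ _ => Nat.zero_le _) (mem_univ i)
    have hval : ∀ i, ∀ v < q i, |c i + κ i * (v : ℕ)| ≤ ((B + (∑ i, (κ i).natAbs) * B : ℕ) : ℤ) * M := by
      intro i v hv
      obtain ⟨-, -, h6, h7⟩ := hq i
      refine (val_le B M (c i) (κ i) _ h7 ?_).trans ?_
      · rw [abs_of_nonneg (Int.natCast_nonneg _)]
        exact_mod_cast (by omega : v ≤ B * M)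
      · have : B + (κ i).natAbs * B ≤ B + (∑ i, (κ i).natAbs) * B :=
          Nat.add_le_add_left (Nat.mul_le_mul_right _ (hκi i)) _
        apply mul_le_mul_of_nonneg_right _ (Int.natCast_nonneg _)
        exact_mod_cast this
    have hSlt : ∀ i, ∀ v ∈ S (q i) (A i), v < q i := by
      intro i v hv
      unfold S at hv
      rw [mem_filter, mem_range] at hv
      exact hv.1
    have key := h2 M (by omega) (fun i => {v // v ∈ S (q i) (A i)}) (fun i v => c i + κ i * ((v.1 : ℕ) : ℤ))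
      (fun i v => (hval i v.1 (hSlt i v.1 v.2)).trans (by
        apply mul_le_mul_of_nonneg_right _ (Int.natCast_nonneg _)
        rw [hBs]
        push_cast
        linarith))
      (fun i => h1 M (by omega) (q i) (hq i).1 (hq i).2.1 (A i) (hA i) (c i) (κ i) (hκ i))
      (univ.filter (fun v : ∀ i, {v // v ∈ S (q i) (A i)} =>
        ¬ ∀ β : Fin (g + 1) → ℤ, (∀ i, |((β i - (c i + κ i * ((v i).1 : ℕ)) : ℤ) : ℝ)| ≤ Real.log M ^ W) →
          Holds ε D W M β)) ?_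
    · refine le_trans ?_ (key.trans (le_of_eq ?_))
      · apply Nat.cast_le.2
        refine (card_le_card (t := image (fun (v : ∀ i, {v // v ∈ S (q i) (A i)}) (i : Fin (g + 1)) => (v i).1) _) ?_).trans
          card_image_le
        intro v hv
        rw [mem_filter, Fintype.mem_piFinset] at hv
        rw [mem_image]
        exact ⟨fun i => ⟨v i, hv.1 i⟩, mem_filter.2 ⟨mem_univ _, hv.2⟩, rfl⟩
      · congr 1
        apply prod_congr rfl
        intro i _
        rw [Fintype.card_coe]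
    · intro v hv
      rw [mem_filter] at hv
      by_contra hcon
      push Not at hcon
      refine hv.2 fun β hβ => h3 M (by omega) β (fun i => ?_) fun b₀ hb₀ => ?_
      · have h6 := hval i (v i).1 (hSlt i _ (v i).2)
        have h7 : |β i - (c i + κ i * ((v i).1 : ℕ))| ≤ (M : ℤ) := by
          have h8 := (hβ i).trans hWM'
          have h9 : ((|β i - (c i + κ i * ((v i).1 : ℕ))| : ℤ) : ℝ) ≤ ((M : ℤ) : ℝ) := by
            rw [Int.cast_abs]
            exact_mod_cast h8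
          exact_mod_cast h9
        have h8 := abs_add_le (β i - (c i + κ i * ((v i).1 : ℕ))) (c i + κ i * ((v i).1 : ℕ))
        rw [sub_add_cancel] at h8
        rw [hBs]
        push_cast at h6 ⊢
        linarith
      · apply hcon
        intro i
        have hL1 : Real.log M ^ W + Real.log M ^ W ≤ Real.log M ^ (W + 1) := by
          rw [pow_succ]
          have : (0 : ℝ) ≤ Real.log M ^ W := by positivity
          nlinarith
        have hL2 : Real.log M ^ W ≤ Real.log M ^ (W + 1) := by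
          have : (0 : ℝ) ≤ Real.log M ^ W := by positivity
          linarith
        refine Fin.cases ?_ (fun i => ?_) i
        · rw [Fin.cons_zero]
          have e : ((β 0 - b₀ - (c 0 + κ 0 * ((v 0).1 : ℕ)) : ℤ) : ℝ) =
              ((β 0 - (c 0 + κ 0 * ((v 0).1 : ℕ)) : ℤ) : ℝ) - b₀ := by push_cast; ring
          rw [e]
          have h6 := hβ 0
          rw [abs_le] at h6 hb₀ ⊢
          constructor <;> linarith [h6.1, h6.2, hb₀.1, hb₀.2]
        · rw [Fin.cons_succ]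
          exact (hβ i.succ).trans hL2
  refine ⟨main η hη p₀, ?_⟩
  obtain ⟨M₀, hM₀⟩ := main (1 / 4) (by norm_num) 256
  refine ⟨M₀, fun M hM q c hq => ?_⟩
  have := hM₀ M hM q (fun _ => sqs) c hq (fun i l hl hl2 => sqs_regular l (Nat.prime_of_mem_primeFactors hl) hl2)
  simp only [← QR_eq] at this
  exact this

end Pool.Agent.Results.MP_0bf1d2_nt.LocalConditionSystems
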