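import Pool.Agent.Results.MP_0bf1d2_nt.LocalConditionSystems
import Pool.Agent.T9h51.PD.All

/-!
# Schinzel's Goldbach-type hypothesis for systems of linear polynomials: the number `N` and the constant terms are close to
values of polynomials of arbitrary degrees at integers with restricted digits

`F_1 = x`, `F_i = a_i x + b_i` (`2 ≤ i ≤ g + 1`) and `G = a_0 x + b_0`. The formula of the hypothesis is proved for all slopes
up to a power of the logarithm, and for all the vectors `(N, b_2, ..., b_(g+1))` close to almost all vectors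
`(f_0(n_0), ..., f_g(n_g))`, where `f_i` is a polynomial of degree `d_i ≥ 2` and the digits of `n_i` in base `β_i` lie in
arbitrary sets of at least two digits, which depend on the place. For one polynomial `F_1 = x` (`g = 0`) only `N` is averaged,
over the values of a polynomial at integers with restricted digits, for instance over the numbers `m ^ 3 + r` where all
the digits of `m` are `0` or `1`.

New is the additive energy of the values of polynomials of every degree at integers with restricted digits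
(`Pool.Agent.T9h51.PD.energy_all`), the consequence of a Weyl inequality (`Pool.Agent.T9h51.PD.weyl_scale`; compare
B. Green, Waring's problem with restricted digits, 2023, for `x ^ d` and two fixed digits); the passage
from the energy to systems of linear forms is from the starting files (`Pool.Agent.TH935`). The definitions (`Q₁`, `X`,
`omega`, `sing`, `NoFixed`, `Formula`, `Holds`) are those of
`Pool.Agent.Results.MP_0bf1d2_nt.LocalConditionSystems`.
-/

set_option autoImplicit false

namespace Pool.Agent.Results.MP_0bf1d2_nt.PolynomialDigitSystems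

open Finset Polynomial
open Pool.Agent.T9h51.LR (En near)
open Pool.Agent.Results.MP_0bf1d2_nt.LocalConditionSystems (Holds holds_of)

/-- The integers below `b ^ k` whose `i`-th digit in base `b` belongs to `D i` for all `i < k`. -/
def S (b : ℕ) (D : ℕ → Finset ℕ) (k : ℕ) : Finset ℕ := (range (b ^ k)).filter (fun n : ℕ => ∀ i < k, n / b ^ i % b ∈ D i)

/-- from the energy to the formula -/
theorem systems (g h B C D W U : ℕ) (ε : ℝ) (hε : 0 < ε) : ∃ M₀ : ℕ, ∀ M : ℕ, M₀ ≤ M →
    ∀ (ι : Fin (g + 1) → Type) [∀ i, Fintype (ι i)] (v : ∀ i, ι i → ℤ), (∀ i j, |v i j| ≤ B * M) →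
      (∀ i, (En h (v i) : ℝ) * M ≤ Real.log M ^ C * (Fintype.card (ι i) : ℝ) ^ (2 * h)) →
      ∀ T : Finset (∀ i, ι i), (∀ q ∈ T, ¬ ∀ β : Fin (g + 1) → ℤ,
        (∀ i, |((β i - v i (q i) : ℤ) : ℝ)| ≤ Real.log M ^ W) → Holds ε D W M β) →
      (T.card : ℝ) ≤ (∏ i, (Fintype.card (ι i) : ℝ)) / Real.log M ^ U := by
  obtain ⟨n2, h2⟩ := near (g + 1) h D (B + 1) C D (W + 1) U (by omega) (ε / 4) (by positivity)
  obtain ⟨n3, h3⟩ := holds_of (g := g) (B + 1) D W ε hε
  obtain ⟨n4, h4⟩ := Pool.Agent.H373R2.T7.ev_L' 2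
  obtain ⟨n5, h5⟩ := Pool.Agent.H373R2.T7.ev_log' W 1
  refine ⟨n2 + n3 + n4 + n5 + 3, fun M hM ι _ v hv hE T hT => ?_⟩
  have hL := h4 M (by omega)
  have hWM := h5 M (by omega)
  have hM3 : (3 : ℝ) ≤ M := by exact_mod_cast (by omega : 3 ≤ M)
  have hWM' : Real.log M ^ W ≤ M := by
    rw [one_mul] at hWM
    refine hWM.trans ?_
    rw [Real.sqrt_le_left (by linarith)]
    nlinarith
  refine h2 M (by omega) ι v (fun i j => (hv i j).trans (by push_cast; linarith)) hE T fun q hq => ?_
  by_contra hcon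
  push Not at hcon
  refine hT q hq fun β hβ => h3 M (by omega) β (fun i => ?_) fun b₀ hb₀ => ?_
  · have h6 := hv i (q i)
    have h7 : |β i - v i (q i)| ≤ (M : ℤ) := by
      have h8 := (hβ i).trans hWM'
      have h9 : ((|β i - v i (q i)| : ℤ) : ℝ) ≤ ((M : ℤ) : ℝ) := by
        rw [Int.cast_abs]
        exact_mod_cast h8
      exact_mod_cast h9
    have h8 := abs_add_le (β i - v i (q i)) (v i (q i))
    rw [sub_add_cancel] at h8
    push_cast at h6 ⊢
    linarith
  · apply hcon
    intro i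
    have hL1 : Real.log M ^ W + Real.log M ^ W ≤ Real.log M ^ (W + 1) := by
      rw [pow_succ]
      have : (0 : ℝ) ≤ Real.log M ^ W := by positivity
      nlinarith
    have hL2 : Real.log M ^ W ≤ Real.log M ^ (W + 1) := by
      have : (0 : ℝ) ≤ Real.log M ^ W := by positivity
      linarith
    refine Fin.cases ?_ (fun i => ?_) i
    · rw [Fin.cons_zero]
      have e : ((β 0 - b₀ - v 0 (q 0) : ℤ) : ℝ) = ((β 0 - v 0 (q 0) : ℤ) : ℝ) - b₀ := by push_cast; ring
      rw [e]
      have h6 := hβ 0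
      rw [abs_le] at h6 hb₀ ⊢
      constructor <;> linarith [h6.1, h6.2, hb₀.1, hb₀.2]
    · rw [Fin.cons_succ]
      exact (hβ i.succ).trans hL2

open Classical in
/-- **Schinzel's formula for systems of linear polynomials with `N` and constant terms close to values of polynomials at
integers with restricted digits.** Let `g ≥ 0`, `ε > 0`, `B`, `D`, `W`, `U`, bases `β_i ≥ 2`, degrees `d_i ≥ 2` and leading
coefficients `κ_i ≠ 0` (`0 ≤ i ≤ g`) be fixed, and let `M` be large. For `0 ≤ i ≤ g` let `k_i` be such that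
`M ≤ B β_i ^ (d_i k_i)`, let `D_i(l)`, `l < k_i`, be arbitrary sets of at least two digits in base `β_i`, let `S_i` be the set
of the integers below `β_i ^ k_i` whose digit number `l` lies in `D_i(l)` for all `l < k_i`, and let `f_i` be an arbitrary
polynomial with integer coefficients, of degree `d_i` and with leading coefficient `κ_i`, with `|f_i(n)| ≤ B M` for all
`n < β_i ^ k_i`.

Then all the vectors `(n_0, ..., n_g)` with `n_i ∈ S_i`, except for a proportion of at most `1 / log ^ U M`, have the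
following property: for ALL the integral vectors `(N, b_2, ..., b_(g+1))` whose distance from
`(f_0(n_0), ..., f_g(n_g))` is at most `log ^ W M` in each coordinate, `b_i ≥ 0`, for all slopes `1 ≤ a_i ≤ log ^ D M` and all
`|b₀| ≤ log ^ W M` Schinzel's formula holds, with a relative error of at most `ε`, for the polynomials `F_1 = x`,
`F_i = a_i x + b_i`, `G = a₀ x + b₀` and the number `N`, if the `F_i` are distinct, if `F_1 ... F_(g+1) (N - G)` has no fixed
prime divisor and if `X(N) ≥ M / log ^ D M`. -/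
theorem result (g B D W U : ℕ) (ε : ℝ) (hε : 0 < ε) (b d : Fin (g + 1) → ℕ) (hb : ∀ i, 2 ≤ b i) (hd : ∀ i, 2 ≤ d i)
    (κ : Fin (g + 1) → ℤ) (hκ : ∀ i, κ i ≠ 0) :
    ∃ M₀ : ℕ, ∀ M : ℕ, M₀ ≤ M → ∀ (k : Fin (g + 1) → ℕ) (Δ : Fin (g + 1) → ℕ → Finset ℕ) (f : Fin (g + 1) → ℤ[X]),
      (∀ i, M ≤ B * b i ^ (d i * k i)) → (∀ i, ∀ l < k i, Δ i l ⊆ range (b i) ∧ 2 ≤ (Δ i l).card) →
      (∀ i, (f i).natDegree = d i ∧ (f i).leadingCoeff = κ i ∧ ∀ n < b i ^ k i, |(f i).eval (n : ℤ)| ≤ B * M) →
      (((Fintype.piFinset (fun i => S (b i) (Δ i) (k i))).filter (fun n : Fin (g + 1) → ℕ =>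
        ¬ ∀ β : Fin (g + 1) → ℤ, (∀ i, |((β i - (f i).eval (n i : ℤ) : ℤ) : ℝ)| ≤ Real.log M ^ W) →
          Holds ε D W M β)).card : ℝ) ≤ (∏ i, ((S (b i) (Δ i) (k i)).card : ℝ)) / Real.log M ^ U := by
  obtain ⟨p, n1, h1⟩ := Pool.Agent.T9h51.PD.energy_scale b d hb hd κ hκ B
  obtain ⟨n2, h2⟩ := systems g p B 1 D W U ε hε
  refine ⟨n1 + n2, fun M hM k Δ f hk hΔ hf => ?_⟩
  have hSlt : ∀ i, ∀ n ∈ S (b i) (Δ i) (k i), n < b i ^ k i := by
    intro i n hn
    unfold S at hn
    rw [mem_filter, mem_range] at hn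
    exact hn.1
  have key := h2 M (by omega) (fun i => {n // n ∈ S (b i) (Δ i) (k i)}) (fun i n => (f i).eval (n.1 : ℤ))
    (fun i n => (hf i).2.2 n.1 (hSlt i n.1 n.2))
    (fun i => h1 M (by omega) i (k i) (hk i) (Δ i) (hΔ i) (f i) (hf i).1 (hf i).2.1)
    (univ.filter (fun n : ∀ i, {n // n ∈ S (b i) (Δ i) (k i)} =>
      ¬ ∀ β : Fin (g + 1) → ℤ, (∀ i, |((β i - (f i).eval ((n i).1 : ℤ) : ℤ) : ℝ)| ≤ Real.log M ^ W) →
        Holds ε D W M β)) (fun q hq => (mem_filter.1 hq).2)
  refine le_trans ?_ (key.trans (le_of_eq ?_))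
  · apply Nat.cast_le.2
    refine (card_le_card (t := image (fun (v : ∀ i, {n // n ∈ S (b i) (Δ i) (k i)}) (i : Fin (g + 1)) => (v i).1) _) ?_).trans
      card_image_le
    intro v hv
    rw [mem_filter, Fintype.mem_piFinset] at hv
    rw [mem_image]
    exact ⟨fun i => ⟨v i, hv.1 i⟩, mem_filter.2 ⟨mem_univ _, hv.2⟩, rfl⟩
  · congr 1
    apply prod_congr rfl
    intro i _
    rw [Fintype.card_coe]

end Pool.Agent.Results.MP_0bf1d2_nt.PolynomialDigitSystems
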